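import Mathlib
import Pool.Agent.H38.RB.Targets

/-!
# Power saving for the number of admissible triples with small radical (MP_7ecdd4_nt, n = 3)

Every `T_XXX : Prop` is to be proved as a theorem `pf_XXX : T_XXX` in its own file, other targets
being hypotheses.
-/

set_option autoImplicit false

open Pool.Agent.H38.RB

namespace Pool.Agent.H38.PS

/-- the product of the elements of `S` -/
def pd (S : Finset ℕ) : ℕ := ∏ p ∈ S, p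

/-! ## the pigeonhole argument for one prime -/

/-- LTE: two different numbers which are congruent modulo `2 ∏ S` have incongruent `n`-th powers
modulo a large number composed of primes in `S`. -/
def T_LTE : Prop := ∀ (g n m m' : ℕ) (S : Finset ℕ), (∀ q ∈ S, q.Prime) → g ≠ 0 → n ≠ 0 →
  g.primeFactors ⊆ S → m.Coprime g → m ≠ m' → m ≡ m' [MOD 2 * pd S] → m ^ n ≡ m' ^ n [MOD g] →
  g ≤ n * max m m'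

/-- CLS: few numbers `g` such that every `a` composed of primes in `S` with `log a ≤ 2 h` has a
divisor `g` which is almost as large as `a`. -/
def T_CLS : Prop := ∀ (S : Finset ℕ) (h : ℝ), (∀ q ∈ S, q.Prime) → 0 < h →
  ∃ G : Finset ℕ, G.card ≤ 2 ^ (9 * S.card) ∧ ∀ a : ℕ, a ≠ 0 → a.primeFactors ⊆ S →
    Real.log a ≤ 2 * h → ∃ g ∈ G, g ∣ a ∧ Real.log a - h / 4 ≤ Real.log g

/-- PIG: the pigeonhole principle for the products of `r` elements of `P`. -/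
def T_PIG : Prop := ∀ (S P : Finset ℕ) (V W : ℕ → ℕ) (g n r B : ℕ) (σ : ℤ) (X : ℝ),
  (∀ q ∈ S, q.Prime) → (∀ p ∈ P, p.Prime ∧ p ∉ S ∧ (p : ℝ) ≤ X) → g ≠ 0 →
  g.primeFactors ⊆ S → n ≠ 0 → (σ = 1 ∨ σ = -1) →
  (∀ p ∈ P, V p ≠ 0 ∧ W p ≠ 0 ∧ (V p).primeFactors ⊆ S ∧ (W p).primeFactors ⊆ S ∧
    (W p).Coprime g ∧ (∀ q, (V p).factorization q ≤ B) ∧ (∀ q, (W p).factorization q ≤ B)) →
  (∀ p ∈ P, (g : ℤ) ∣ (W p : ℤ) * (p : ℤ) ^ n - σ * (V p : ℤ)) →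
  2 * pd S * (2 * r * B + 1) ^ S.card < P.card.choose r → (g : ℝ) ≤ n * X ^ r

/-- NUM: choice of `r`. -/
def T_NUM : Prop := ∀ γ : ℝ, 0 < γ → ∃ A X₀ : ℝ, 1 ≤ A ∧ 2 ≤ X₀ ∧ ∀ (X h : ℝ) (k N : ℕ),
  X₀ ≤ X → A * Real.log X ≤ h → h ≤ X → (k.factorial : ℝ) ≤ X →
  X ^ γ ≤ (N : ℝ) * (12 * 2 ^ (9 * k)) →
  ∃ r : ℕ, 2 * X * (2 * (r : ℝ) * (⌊3 * h⌋₊ : ℝ) + 1) ^ k < (N.choose r : ℝ) ∧
    ∀ n : ℕ, (n : ℝ) ≤ 3 * h → (n : ℝ) * X ^ r < Real.exp (3 * h / 4) / 2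

/-- the primes `p ≤ X` outside `S` such that there is a triple whose product has the prime factors
`S ∪ {p}`, with exponent `n` at `p`, and has `h ≤ log H ≤ 2 h` -/
def fam (X : ℝ) (S : Finset ℕ) (n : ℕ) (h : ℝ) : Set ℕ :=
  {p | p.Prime ∧ p ∉ S ∧ (p : ℝ) ≤ X ∧ ∃ x : Fin 3 → ℤ, Adm x ∧
    (pr x).primeFactors = insert p S ∧ (pr x).factorization p = n ∧
    h ≤ Real.log (ht x) ∧ Real.log (ht x) ≤ 2 * h}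

/-- LPC: for a given exponent there are few such primes. -/
def T_LPC : Prop := ∀ γ : ℝ, 0 < γ → ∃ A X₀ : ℝ, 1 ≤ A ∧ 2 ≤ X₀ ∧
  ∀ (X h : ℝ) (S : Finset ℕ) (n : ℕ), X₀ ≤ X → A * Real.log X ≤ h → h ≤ X →
    (∀ q ∈ S, q.Prime) → (pd S : ℝ) ≤ X → n ≠ 0 →
    (fam X S n h).Finite ∧ ((fam X S n h).ncard : ℝ) ≤ X ^ γ

/-! ## counting -/

/-- LP: the triples for which the radical divided by one prime is at most `Y`. -/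
def T_LP : Prop := ∀ ε : ℝ, 0 < ε → ∃ A C : ℝ, 1 ≤ A ∧ 0 < C ∧ ∀ X Y Z : ℝ, 2 ≤ X → 1 ≤ Y →
  1 ≤ Z → Z ≤ X →
  {x | Adm x ∧ (pd (pr x).primeFactors : ℝ) ≤ X ∧ A * Real.log X ≤ Real.log (ht x) ∧
    Real.log (ht x) ≤ Z ∧
    ∃ p ∈ (pr x).primeFactors, (pd (pr x).primeFactors : ℝ) ≤ Y * p}.Finite ∧
  ({x | Adm x ∧ (pd (pr x).primeFactors : ℝ) ≤ X ∧ A * Real.log X ≤ Real.log (ht x) ∧
    Real.log (ht x) ≤ Z ∧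
    ∃ p ∈ (pr x).primeFactors, (pd (pr x).primeFactors : ℝ) ≤ Y * p}.ncard : ℝ) ≤
    C * Y * Z * X ^ ε

/-- SM: the triples of small height. -/
def T_SM : Prop := ∀ A ε : ℝ, 1 ≤ A → 0 < ε → ∃ C : ℝ, 0 < C ∧ ∀ X : ℝ, 1 ≤ X →
  {x | Adm x ∧ (pd (pr x).primeFactors : ℝ) ≤ X ∧ Real.log (ht x) ≤ A * Real.log X}.Finite ∧
  ({x | Adm x ∧ (pd (pr x).primeFactors : ℝ) ≤ X ∧
    Real.log (ht x) ≤ A * Real.log X}.ncard : ℝ) ≤ C * X ^ (2 / 3 + ε)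

/-- BIN: a set of items of total size `< 3` consists of `h` items and of the items in `6, 4, 2, 1`
bins of capacity `6 / 7`, for `h = 0, 1, 2, 3`. -/
def T_BIN : Prop := ∀ (T : Finset ℕ) (y : ℕ → ℝ), (∀ p ∈ T, 0 ≤ y p) → ∑ p ∈ T, y p < 3 →
  ∃ (Q : Finset ℕ) (b : ℕ) (f : Fin b → Finset ℕ), Q ⊆ T ∧
    (∀ i, f i ⊆ T ∧ ∑ p ∈ f i, y p ≤ 6 / 7) ∧ (∀ p ∈ T, p ∉ Q → ∃ i, p ∈ f i) ∧
    ((Q.card = 0 ∧ b = 6) ∨ (Q.card = 1 ∧ b = 4) ∨ (Q.card = 2 ∧ b = 2) ∨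
      (Q.card = 3 ∧ b = 1))

/-- SEL: choice of the primes to be removed. -/
def T_SEL : Prop := ∀ (T : Finset ℕ) (y w : ℕ → ℝ) (c M L : ℝ), (∀ p ∈ T, 0 ≤ y p) →
  (∀ p ∈ T, 0 ≤ w p) → ∑ p ∈ T, y p < 3 → ∑ p ∈ T, w p ≤ L → 0 ≤ c → 0 ≤ M → M ≤ 1 / 6 →
  4 * M + 3 * c ≤ 1 →
  (∃ D ⊆ T, ∑ p ∈ D, y p ≤ 6 / 7 ∧ ∑ p ∈ T \ D, w p ≤ (1 - M) * L) ∨
    ∃ p ∈ T, ∑ q ∈ T.erase p, w q ≤ (1 - M - c) * L

/-- SEL2: choice of the primes to be removed when there is no large prime. -/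
def T_SEL2 : Prop := ∀ (T : Finset ℕ) (y w : ℕ → ℝ) (θ M L : ℝ), (∀ p ∈ T, 0 ≤ y p) →
  (∀ p ∈ T, 0 ≤ w p) → ∑ p ∈ T, y p < 3 → ∑ p ∈ T, w p ≤ L → 0 ≤ θ → 0 ≤ M → M ≤ 1 / 6 →
  M + 3 * θ ≤ 1 → (∀ p ∈ T, w p ≤ θ * L) →
  ∃ D ⊆ T, ∑ p ∈ D, y p ≤ 6 / 7 ∧ ∑ p ∈ T \ D, w p ≤ (1 - M) * L

/-- REM: removal of a set of primes of small weight. -/
def T_REM : Prop := ∀ (x : Fin 3 → ℤ), Adm x →
  ∑ p ∈ (pr x).primeFactors,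
    ((pr x).factorization p : ℝ) * Real.log p / Real.log (ht x) < 3 ∧
  ∀ D ⊆ (pr x).primeFactors,
    ∑ p ∈ D, ((pr x).factorization p : ℝ) * Real.log p / Real.log (ht x) ≤ 6 / 7 →
    x ∈ Sol (6 / 7) ((pr x).primeFactors \ D)

/-- LGT: the triples for which the radical divided by a set of primes of small weight is at most
`Y`. -/
def T_LGT : Prop := ∀ ε : ℝ, 0 < ε → ∃ C : ℝ, 0 < C ∧ ∀ Y : ℝ, 1 ≤ Y →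
  {x | ∃ S : Finset ℕ, (∀ p ∈ S, p.Prime) ∧ (pd S : ℝ) ≤ Y ∧ x ∈ Sol (6 / 7) S}.Finite ∧
  ({x | ∃ S : Finset ℕ, (∀ p ∈ S, p.Prime) ∧ (pd S : ℝ) ≤ Y ∧ x ∈ Sol (6 / 7) S}.ncard : ℝ) ≤
    C * Y ^ (1 + ε)

/-- FA: the count for heights up to `exp (X ^ c)`. -/
def T_FA : Prop := ∀ c ε : ℝ, 0 ≤ c → c < 1 / 3 → 0 < ε → ∃ C : ℝ, 0 < C ∧ ∀ X : ℝ, 1 ≤ X →
  {x | Adm x ∧ (pd (pr x).primeFactors : ℝ) ≤ X ∧ (ht x : ℝ) ≤ Real.exp (X ^ c)}.Finite ∧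
  ({x | Adm x ∧ (pd (pr x).primeFactors : ℝ) ≤ X ∧
    (ht x : ℝ) ≤ Real.exp (X ^ c)}.ncard : ℝ) ≤ C * X ^ (max (5 / 6) ((3 + 3 * c) / 4) + ε)

/-- FB: the count for smooth radicals. -/
def T_FB : Prop := ∀ θ ε : ℝ, 0 ≤ θ → θ < 1 / 3 → 0 < ε → ∃ C : ℝ, 0 < C ∧ ∀ X : ℝ, 1 ≤ X →
  {x | Adm x ∧ (pd (pr x).primeFactors : ℝ) ≤ X ∧
    ∀ p ∈ (pr x).primeFactors, (p : ℝ) ≤ X ^ θ}.Finite ∧
  ({x | Adm x ∧ (pd (pr x).primeFactors : ℝ) ≤ X ∧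
    ∀ p ∈ (pr x).primeFactors, (p : ℝ) ≤ X ^ θ}.ncard : ℝ) ≤
    C * X ^ (min (2 / 3 + θ) (max (5 / 6) (3 * θ)) + ε)

end Pool.Agent.H38.PS
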