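import Mathlib
import Pool.Agent.H38.RB.Targets
import Pool.Agent.H38.PS.Targets

/-!
# The sharp exponent for the number of admissible triples with small radical: targets

Every `T_XXX : Prop` is to be proved as a theorem `pf_XXX : T_XXX` in its own file, other targets
being hypotheses.
-/

set_option autoImplicit false

open Pool.Agent.H38.RB

namespace Pool.Agent.H38.PS

/-- CLS2: few numbers `g` such that every `a` composed of primes in `S` with `log a ≤ 2 h` has a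
divisor `g` which is almost as large as `a`. -/
def T_CLS2 : Prop := ∀ (K : ℕ) (S : Finset ℕ) (h : ℝ), 1 ≤ K → (∀ q ∈ S, q.Prime) → 0 < h →
  ∃ G : Finset ℕ, G.card ≤ 2 ^ ((2 * K + 1) * S.card) ∧ ∀ a : ℕ, a ≠ 0 → a.primeFactors ⊆ S →
    Real.log a ≤ 2 * h → ∃ g ∈ G, g ∣ a ∧ Real.log a - h / K ≤ Real.log g

/-- NUM2: choice of `r`. -/
def T_NUM2 : Prop := ∀ (γ δ : ℝ) (K : ℕ), 0 < γ → 0 < δ → ∃ A X₀ : ℝ, 1 ≤ A ∧ 2 ≤ X₀ ∧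
  ∀ (X h : ℝ) (k N : ℕ), X₀ ≤ X → A * Real.log X ≤ h → h ≤ X → (k.factorial : ℝ) ≤ X →
  X ^ γ ≤ (N : ℝ) * (12 * 2 ^ (K * k)) →
  ∃ r : ℕ, 2 * X * (2 * (r : ℝ) * (⌊3 * h⌋₊ : ℝ) + 1) ^ k < (N.choose r : ℝ) ∧
    ∀ n : ℕ, (n : ℝ) ≤ 3 * h → (n : ℝ) * X ^ r < Real.exp (δ * h)

/-- the primes `p ≤ X` outside `S` such that there is a triple with entries `x c` composed of
primes in `S`, `x b` composed of primes in `S ∪ {p}`, with exponent `n` at `p`, and `x a` with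
`S`-part at least `H ^ δ`, and with `h ≤ log H ≤ 2 h` -/
def fam2 (X δ : ℝ) (S : Finset ℕ) (n : ℕ) (h : ℝ) : Set ℕ :=
  {p | p.Prime ∧ p ∉ S ∧ (p : ℝ) ≤ X ∧ ∃ (x : Fin 3 → ℤ) (a b c : Fin 3), Adm x ∧
    a ≠ b ∧ a ≠ c ∧ b ≠ c ∧ (x c).natAbs.primeFactors ⊆ S ∧
    (x b).natAbs.primeFactors ⊆ insert p S ∧ (x b).natAbs.factorization p = n ∧
    δ * Real.log (ht x) ≤ Real.log (tp S (x a).natAbs) ∧
    h ≤ Real.log (ht x) ∧ Real.log (ht x) ≤ 2 * h}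

/-- LPC2: for a given exponent there are few such primes. -/
def T_LPC2 : Prop := ∀ γ δ : ℝ, 0 < γ → 0 < δ → ∃ A X₀ : ℝ, 1 ≤ A ∧ 2 ≤ X₀ ∧
  ∀ (X h : ℝ) (S : Finset ℕ) (n : ℕ), X₀ ≤ X → A * Real.log X ≤ h → h ≤ X →
    (∀ q ∈ S, q.Prime) → (pd S : ℝ) ≤ X → n ≠ 0 →
    (fam2 X δ S n h).Finite ∧ ((fam2 X δ S n h).ncard : ℝ) ≤ X ^ γ

/-- the triples with radical at most `X` for which the radical divided by a prime of one entry and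
a set `E` of primes of another entry is at most `Y`; `E` may contain all primes of `x a` up to a
part `≥ H ^ δ` of `x a` -/
def Two (X Y δ : ℝ) : Set (Fin 3 → ℤ) :=
  {x | Adm x ∧ (pd (pr x).primeFactors : ℝ) ≤ X ∧ ∃ (a b : Fin 3) (p : ℕ) (E : Finset ℕ),
    a ≠ b ∧ p ∈ (x b).natAbs.primeFactors ∧ E ⊆ (x a).natAbs.primeFactors ∧
    Real.log (tp E (x a).natAbs) + δ * Real.log (ht x) ≤ Real.log ((x a).natAbs : ℝ) ∧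
    (pd (pr x).primeFactors : ℝ) ≤ Y * p * pd E}

/-- LP2: the triples of `Two` of moderate height. -/
def T_LP2 : Prop := ∀ ε δ : ℝ, 0 < ε → 0 < δ → ∃ A C : ℝ, 1 ≤ A ∧ 0 < C ∧ ∀ X Y Z : ℝ,
  2 ≤ X → 1 ≤ Y → 1 ≤ Z → Z ≤ X →
  {x | x ∈ Two X Y δ ∧ A * Real.log X ≤ Real.log (ht x) ∧ Real.log (ht x) ≤ Z}.Finite ∧
  ({x | x ∈ Two X Y δ ∧ A * Real.log X ≤ Real.log (ht x) ∧
    Real.log (ht x) ≤ Z}.ncard : ℝ) ≤ C * Y * Z * X ^ ε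

/-- SEL3: every triple of large height is in one of the two classes, with `Y = X ^ (2/3 + ε)`. -/
def T_SEL3 : Prop := ∀ ε : ℝ, 0 < ε → ∃ δ K : ℝ, 0 < δ ∧ δ < 1 ∧ 0 ≤ K ∧
  ∀ x : Fin 3 → ℤ, Adm x → K ≤ Real.log (ht x) →
  (∃ E ⊆ (pr x).primeFactors, Real.log (tp E (pr x)) ≤ (1 - δ) * Real.log (ht x) ∧
    Real.log (pd ((pr x).primeFactors \ E)) ≤ (2 / 3 + ε) * Real.log (pd (pr x).primeFactors)) ∨
  ∃ (a b : Fin 3) (p : ℕ) (E : Finset ℕ),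
    a ≠ b ∧ p ∈ (x b).natAbs.primeFactors ∧ E ⊆ (x a).natAbs.primeFactors ∧
    Real.log (tp E (x a).natAbs) + δ * Real.log (ht x) ≤ Real.log ((x a).natAbs : ℝ) ∧
    Real.log (pd (pr x).primeFactors) - Real.log p - Real.log (pd E) ≤
      (2 / 3 + ε) * Real.log (pd (pr x).primeFactors)

/-- LGT2: the triples for which the radical divided by a set of primes of small weight is at most
`Y`, of any height. -/
def T_LGT2 : Prop := ∀ δ ε : ℝ, 0 < δ → 0 < ε → ∃ C : ℝ, 0 < C ∧ ∀ Y : ℝ, 1 ≤ Y →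
  {x | ∃ S : Finset ℕ, (∀ p ∈ S, p.Prime) ∧ (pd S : ℝ) ≤ Y ∧ x ∈ Sol (1 - δ) S}.Finite ∧
  ({x | ∃ S : Finset ℕ, (∀ p ∈ S, p.Prime) ∧ (pd S : ℝ) ≤ Y ∧ x ∈ Sol (1 - δ) S}.ncard : ℝ) ≤
    C * Y ^ (1 + ε)

/-- REM2: from the first class of `SEL3` to `Sol`. -/
def T_REM2 : Prop := ∀ (δ : ℝ) (x : Fin 3 → ℤ), Adm x → ∀ E ⊆ (pr x).primeFactors,
  Real.log (tp E (pr x)) ≤ (1 - δ) * Real.log (ht x) →
  x ∈ Sol (1 - δ) ((pr x).primeFactors \ E)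

/-- FA2: the count for heights up to `exp (X ^ c)`. -/
def T_FA2 : Prop := ∀ c ε : ℝ, 0 ≤ c → c ≤ 1 → 0 < ε → ∃ C : ℝ, 0 < C ∧ ∀ X : ℝ, 1 ≤ X →
  {x | Adm x ∧ (pd (pr x).primeFactors : ℝ) ≤ X ∧ (ht x : ℝ) ≤ Real.exp (X ^ c)}.Finite ∧
  ({x | Adm x ∧ (pd (pr x).primeFactors : ℝ) ≤ X ∧
    (ht x : ℝ) ≤ Real.exp (X ^ c)}.ncard : ℝ) ≤ C * X ^ (2 / 3 + c + ε)

/-- LOW: the lower bound. -/
def T_LOWC : Prop := ∃ c : ℝ, 0 < c ∧ ∀ X : ℝ, 8 ≤ X →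
  c * X ^ (2 / 3 : ℝ) ≤ ({x | Adm x ∧ (pd (pr x).primeFactors : ℝ) ≤ X ∧
    (ht x : ℝ) ≤ X}.ncard : ℝ)

end Pool.Agent.H38.PS
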