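import Mathlib
import Pool.Agent.H38.RB.Targets
import Pool.Agent.H38.PS.Targets
import Pool.Agent.H38.PS.Targets2

/-!
# The number of admissible triples with small radical, of any height: targets
-/

set_option autoImplicit false

open Pool.Agent.H38.RB

namespace Pool.Agent.H38.PS

/-- the primes `p ≤ X` outside `S` such that there is a triple with entries `x c` composed of
primes in `S`, `x b` composed of primes in `S ∪ {p}` and divisible by `p`, and `x a` with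
`S`-part at least `H ^ δ`, and with `Q ≤ log H ≤ Q ^ 2` -/
def fam3 (X δ : ℝ) (S : Finset ℕ) (Q : ℝ) : Set ℕ :=
  {p | p.Prime ∧ p ∉ S ∧ (p : ℝ) ≤ X ∧ ∃ (x : Fin 3 → ℤ) (a b c : Fin 3), Adm x ∧
    a ≠ b ∧ a ≠ c ∧ b ≠ c ∧ (x c).natAbs.primeFactors ⊆ S ∧
    (x b).natAbs.primeFactors ⊆ insert p S ∧ p ∣ (x b).natAbs ∧
    δ * Real.log (ht x) ≤ Real.log (tp S (x a).natAbs) ∧
    Q ≤ Real.log (ht x) ∧ Real.log (ht x) ≤ Q ^ 2}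

/-- LS (Lemma S of helper82): there are few such primes, whatever their exponents are. -/
def T_LS : Prop := ∀ γ δ : ℝ, 0 < γ → 0 < δ → ∃ X₀ : ℝ, 2 ≤ X₀ ∧
  ∀ (X Q : ℝ) (S : Finset ℕ), X₀ ≤ X → Real.log X ^ 10 ≤ Q → Q ≤ X ^ 20 →
    (∀ q ∈ S, q.Prime) → (pd S : ℝ) ≤ X →
    (fam3 X δ S Q).Finite ∧ ((fam3 X δ S Q).ncard : ℝ) ≤ X ^ γ

/-- HB (Theorem HB of helper82): a bound for the height. -/
def T_HB : Prop := ∃ X₀ : ℝ, 2 ≤ X₀ ∧ ∀ (X : ℝ) (x : Fin 3 → ℤ), X₀ ≤ X → Adm x →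
  (pd (pr x).primeFactors : ℝ) ≤ X → Real.log (ht x) ≤ X ^ 10

/-- LPS: the triples of `Two` of large height. -/
def T_LPS : Prop := ∀ ε δ : ℝ, 0 < ε → 0 < δ → ∃ C : ℝ, 0 < C ∧ ∀ X Y : ℝ, 2 ≤ X → 1 ≤ Y →
  {x | x ∈ Two X Y δ ∧ Real.log X ^ 10 ≤ Real.log (ht x)}.Finite ∧
  ({x | x ∈ Two X Y δ ∧ Real.log X ^ 10 ≤ Real.log (ht x)}.ncard : ℝ) ≤ C * Y * X ^ ε

/-- FALL: the sharp bound for the number of triples of any height. -/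
def T_FALL : Prop := ∀ ε : ℝ, 0 < ε → ∃ C : ℝ, 0 < C ∧ ∀ X : ℝ, 1 ≤ X →
  {x | Adm x ∧ (pd (pr x).primeFactors : ℝ) ≤ X}.Finite ∧
  ({x | Adm x ∧ (pd (pr x).primeFactors : ℝ) ≤ X}.ncard : ℝ) ≤ C * X ^ (2 / 3 + ε)

end Pool.Agent.H38.PS
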