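import Pool.Agent.H38.PS.Targets3
import Pool.Agent.H38.RB.COR

/-!
# The number of admissible triples with radical at most `X`, of any height
-/

set_option autoImplicit false

namespace Pool.Agent.H38.PS

open Pool.Agent.H38.AE.Statement Pool.Agent.H38.RB

theorem adm_iff (x : Fin 3 → ℤ) : Admissible x ↔ Adm x := by
  unfold Admissible Adm
  rw [Fin.sum_univ_three]

theorem radical_eq (x : Fin 3 → ℤ) : radical (∏ i, x i) = pd (pr x).primeFactors := by
  unfold radical pd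
  rw [pr_eq]

theorem set_eq (X : ℝ) : {x : Fin 3 → ℤ | Admissible x ∧ (radical (∏ i, x i) : ℝ) ≤ X} =
    {x | Adm x ∧ (pd (pr x).primeFactors : ℝ) ≤ X} := by
  ext x
  simp only [Set.mem_setOf_eq, adm_iff, radical_eq]

/-- the triple `(1, 1, -2)` -/
theorem adm_two : Admissible (![1, 1, -2] : Fin 3 → ℤ) ∧
    radical (∏ i, (![1, 1, -2] : Fin 3 → ℤ) i) = 2 := by
  refine ⟨⟨?_, ?_, ?_⟩, ?_⟩
  · intro i
    fin_cases i <;> simp
  · intro i j hij
    fin_cases i <;> fin_cases j <;> simp_all [isCoprime_one_left, isCoprime_one_right]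
  · simp [Fin.sum_univ_three]
  · rw [Fin.prod_univ_three]
    simp [radical, Nat.prime_two.primeFactors]

theorem final (hU : T_FALL) (hL : T_LOWC) :
    (∀ ε : ℝ, 0 < ε → ∃ C : ℝ, 0 < C ∧ ∀ X : ℝ, 1 ≤ X →
      {x : Fin 3 → ℤ | Admissible x ∧ (radical (∏ i, x i) : ℝ) ≤ X}.Finite ∧
      ({x : Fin 3 → ℤ | Admissible x ∧ (radical (∏ i, x i) : ℝ) ≤ X}.ncard : ℝ) ≤
        C * X ^ (2 / 3 + ε)) ∧
    ∃ c : ℝ, 0 < c ∧ ∀ X : ℝ, 2 ≤ X → c * X ^ (2 / 3 : ℝ) ≤
      ({x : Fin 3 → ℤ | Admissible x ∧ (radical (∏ i, x i) : ℝ) ≤ X}.ncard : ℝ) := by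
  constructor
  · intro ε hε
    obtain ⟨C, hC, h⟩ := hU ε hε
    refine ⟨C, hC, fun X hX => ?_⟩
    rw [set_eq]
    exact h X hX
  · obtain ⟨c, hc, h⟩ := hL
    obtain ⟨C, -, hfin⟩ := hU 1 one_pos
    refine ⟨min c (1 / 4), lt_min hc (by norm_num), fun X hX => ?_⟩
    have hX0 : (0 : ℝ) ≤ X ^ (2 / 3 : ℝ) := Real.rpow_nonneg (by linarith) _
    have hf : {x : Fin 3 → ℤ | Admissible x ∧ (radical (∏ i, x i) : ℝ) ≤ X}.Finite := by
      rw [set_eq]
      exact (hfin X (by linarith)).1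
    rcases le_total 8 X with h8 | h8
    · refine (mul_le_mul_of_nonneg_right (min_le_left _ _) hX0).trans ((h X h8).trans ?_)
      have hsub : {x : Fin 3 → ℤ | Adm x ∧ (pd (pr x).primeFactors : ℝ) ≤ X ∧
          (ht x : ℝ) ≤ X} ⊆
          {x : Fin 3 → ℤ | Admissible x ∧ (radical (∏ i, x i) : ℝ) ≤ X} := by
        rw [set_eq]
        exact fun x hx => ⟨hx.1, hx.2.1⟩
      exact_mod_cast Set.ncard_le_ncard hsub hf
    · have h4 : X ^ (2 / 3 : ℝ) ≤ 4 := by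
        calc X ^ (2 / 3 : ℝ) ≤ (8 : ℝ) ^ (2 / 3 : ℝ) :=
              Real.rpow_le_rpow (by linarith) h8 (by norm_num)
          _ = 4 := by
              rw [show (8 : ℝ) = 2 ^ (3 : ℝ) by norm_num, ← Real.rpow_mul (by norm_num)]
              norm_num
      have h1 : min c (1 / 4) * X ^ (2 / 3 : ℝ) ≤ 1 := by
        calc min c (1 / 4) * X ^ (2 / 3 : ℝ) ≤ 1 / 4 * 4 :=
              mul_le_mul (min_le_right _ _) h4 hX0 (by norm_num)
          _ = 1 := by norm_num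
      refine h1.trans ?_
      have h2 : 0 < {x : Fin 3 → ℤ | Admissible x ∧ (radical (∏ i, x i) : ℝ) ≤ X}.ncard := by
        rw [Set.ncard_pos hf]
        refine ⟨![1, 1, -2], adm_two.1, ?_⟩
        rw [adm_two.2]
        exact_mod_cast hX
      exact_mod_cast h2

end Pool.Agent.H38.PS
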