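import Pool.Agent.H38.RB.All
import Pool.Agent.H38.PS.Targets3
import Pool.Agent.H21.PS.LTE
import Pool.Agent.H95.PS.PIG
import Pool.Agent.H96.PS.CLS2
import Pool.Agent.H10.PS.NUM2
import Pool.Agent.H19.PS.LPC2
import Pool.Agent.H13.PS.LP2
import Pool.Agent.H6.PS.SM
import Pool.Agent.H59.AB.SEL3b
import Pool.Agent.H48.PS.LGT2
import Pool.Agent.H19.PS.REM2
import Pool.Agent.H55.ABR.FA2
import Pool.Agent.H94.PS.LPS
import Pool.Agent.H56.PS.FALL

/-!
# Admissible triples with small radical: assembly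
-/

set_option autoImplicit false

namespace Pool.Agent.H38.PS

open Pool.Agent.H38.RB

/-- the triples for which the radical divided by one prime and a part of another entry is small -/
theorem lp2 : T_LP2 :=
  Pool.Agent.H13.PS.pf_LP2
    (Pool.Agent.H19.PS.pf_LPC2 Pool.Agent.H96.PS.pf_CLS2
      (Pool.Agent.H95.PS.pf_PIG Pool.Agent.H21.PS.pf_LTE) Pool.Agent.H10.PS.pf_NUM2)
    Pool.Agent.H38.RB.qr (COME Pool.Agent.H38.RB.com)

theorem lgt2 : T_LGT2 := Pool.Agent.H48.PS.pf_LGT2 Pool.Agent.H38.RB.qr (COME Pool.Agent.H38.RB.com)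

/-- the count for heights up to `exp (X ^ c)` -/
theorem fa2 : T_FA2 :=
  Pool.Agent.H55.ABR.pf_FA2 lp2 Pool.Agent.H6.PS.pf_SM Pool.Agent.H59.AB.pf_SEL3 lgt2
    Pool.Agent.H19.PS.pf_REM2

/-- the count for all heights -/
theorem fall (hLS : T_LS) (hHB : T_HB) : T_FALL :=
  Pool.Agent.H56.PS.pf_FALL
    (Pool.Agent.H94.PS.pf_LPS hLS hHB Pool.Agent.H38.RB.qr (COME Pool.Agent.H38.RB.com))
    lp2 Pool.Agent.H6.PS.pf_SM Pool.Agent.H59.AB.pf_SEL3 lgt2 Pool.Agent.H19.PS.pf_REM2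

end Pool.Agent.H38.PS

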