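import Pool.Agent.H38.PS.Targets

/-! # SEL: choice of the primes to be removed -/

set_option autoImplicit false

namespace Pool.Agent.H38.PS

/-- the weights of the bins and of the large items -/
lemma sel_cover (T Q : Finset ℕ) (b : ℕ) (f : Fin b → Finset ℕ) (w : ℕ → ℝ)
    (hw : ∀ p ∈ T, 0 ≤ w p) (hQ : Q ⊆ T) (hf : ∀ i, f i ⊆ T)
    (hc : ∀ p ∈ T, p ∉ Q → ∃ i, p ∈ f i) :
    ∑ p ∈ T, w p ≤ ∑ p ∈ Q, w p + ∑ i, ∑ p ∈ f i, w p := by
  classical
  have h1 : ∑ p ∈ T, w p ≤ ∑ p ∈ Q ∪ Finset.univ.biUnion f, w p := by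
    refine Finset.sum_le_sum_of_subset_of_nonneg ?_ ?_
    · intro p hp
      by_cases hpQ : p ∈ Q
      · exact Finset.mem_union_left _ hpQ
      · obtain ⟨i, hi⟩ := hc p hp hpQ
        exact Finset.mem_union_right _ (Finset.mem_biUnion.2 ⟨i, Finset.mem_univ _, hi⟩)
    · intro p hp _
      rcases Finset.mem_union.1 hp with h | h
      · exact hw p (hQ h)
      · obtain ⟨i, _, hi⟩ := Finset.mem_biUnion.1 h
        exact hw p (hf i hi)
  have h2 : ∑ p ∈ Q ∪ Finset.univ.biUnion f, w p ≤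
      ∑ p ∈ Q, w p + ∑ p ∈ Finset.univ.biUnion f, w p := by
    have h := Finset.sum_union_inter (s₁ := Q) (s₂ := Finset.univ.biUnion f) (f := w)
    have h' : 0 ≤ ∑ p ∈ Q ∩ Finset.univ.biUnion f, w p :=
      Finset.sum_nonneg fun p hp => hw p (hQ (Finset.mem_inter.1 hp).1)
    linarith
  have h3 : ∀ I : Finset (Fin b), ∑ p ∈ I.biUnion f, w p ≤ ∑ i ∈ I, ∑ p ∈ f i, w p := by
    intro I
    induction I using Finset.induction_on with
    | empty => simp
    | insert i I hi ih =>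
      rw [Finset.biUnion_insert, Finset.sum_insert hi]
      have h := Finset.sum_union_inter (s₁ := f i) (s₂ := I.biUnion f) (f := w)
      have h' : 0 ≤ ∑ p ∈ f i ∩ I.biUnion f, w p :=
        Finset.sum_nonneg fun p hp => hw p (hf i (Finset.mem_inter.1 hp).1)
      linarith
  have h4 := h3 Finset.univ
  linarith

theorem pf_SEL (hB : T_BIN) : T_SEL := by
  classical
  intro T y w c M L hy hw hys hws hc hM0 hM6 hMc
  obtain ⟨Q, b, f, hQ, hf, hcov, hcard⟩ := hB T y hy hys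
  by_contra hcon
  rw [not_or] at hcon
  obtain ⟨hn1, hn2⟩ := hcon
  have hcv := sel_cover T Q b f w hw hQ (fun i => (hf i).1) hcov
  set W : ℝ := ∑ p ∈ T, w p with hW
  have hW0 : 0 ≤ W := Finset.sum_nonneg hw
  have hbin : ∀ i, (∑ p ∈ f i, w p) < W - (1 - M) * L := by
    intro i
    have h1 : ¬ ∑ p ∈ T \ f i, w p ≤ (1 - M) * L := fun h => hn1 ⟨f i, (hf i).1, (hf i).2, h⟩
    have h2 := Finset.sum_sdiff (f := w) (hf i).1
    rw [not_le] at h1
    linarith
  have hbig : ∀ p ∈ Q, w p ≤ W - (1 - M - c) * L := by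
    intro p hp
    have h1 : ¬ ∑ q ∈ T.erase p, w q ≤ (1 - M - c) * L := fun h => hn2 ⟨p, hQ hp, h⟩
    have h2 := Finset.sum_erase_add T w (hQ hp)
    rw [not_le] at h1
    linarith
  have h1 : ∑ p ∈ Q, w p ≤ Q.card * (W - (1 - M - c) * L) := by
    have := Finset.sum_le_card_nsmul Q w _ hbig
    rwa [nsmul_eq_mul] at this
  have h2 : ∑ i, ∑ p ∈ f i, w p ≤ b * (W - (1 - M) * L) ∧
      (0 < b → ∑ i, ∑ p ∈ f i, w p < b * (W - (1 - M) * L)) := by
    constructor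
    · have := Finset.sum_le_card_nsmul Finset.univ (fun i => ∑ p ∈ f i, w p) _
        (fun i _ => (hbin i).le)
      rwa [nsmul_eq_mul, Finset.card_univ, Fintype.card_fin] at this
    · intro hb
      have : Nonempty (Fin b) := ⟨⟨0, hb⟩⟩
      have := Finset.sum_lt_sum_of_nonempty (s := Finset.univ)
        (f := fun i => ∑ p ∈ f i, w p) (g := fun _ => W - (1 - M) * L)
        Finset.univ_nonempty (fun i _ => hbin i)
      rwa [Finset.sum_const, nsmul_eq_mul, Finset.card_univ, Fintype.card_fin] at this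
  have hL : 0 ≤ L := hW0.trans hws
  rcases hcard with ⟨ha, rfl⟩ | ⟨ha, rfl⟩ | ⟨ha, rfl⟩ | ⟨ha, rfl⟩
  · have h3 := h2.2 (by norm_num)
    rw [ha] at h1
    push_cast at h1 h3
    nlinarith [mul_nonneg hL (by linarith : (0 : ℝ) ≤ 1 / 6 - M)]
  · have h3 := h2.2 (by norm_num)
    rw [ha] at h1
    push_cast at h1 h3
    nlinarith [mul_nonneg hL (by linarith : (0 : ℝ) ≤ 1 - (5 * M + c)),
      mul_nonneg hL (by linarith : (0 : ℝ) ≤ 1 / 6 - M)]
  · have h3 := h2.2 (by norm_num)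
    rw [ha] at h1
    push_cast at h1 h3
    nlinarith [mul_nonneg hL (by linarith : (0 : ℝ) ≤ 1 - (4 * M + 2 * c))]
  · have h3 := h2.2 (by norm_num)
    rw [ha] at h1
    push_cast at h1 h3
    nlinarith [mul_nonneg hL (by linarith : (0 : ℝ) ≤ 1 - (4 * M + 3 * c))]

theorem pf_SEL2 (hB : T_BIN) : T_SEL2 := by
  classical
  intro T y w θ M L hy hw hys hws hθ hM0 hM6 hMθ hlt
  obtain ⟨Q, b, f, hQ, hf, hcov, hcard⟩ := hB T y hy hys
  by_contra hn1
  have hcv := sel_cover T Q b f w hw hQ (fun i => (hf i).1) hcov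
  set W : ℝ := ∑ p ∈ T, w p with hW
  have hW0 : 0 ≤ W := Finset.sum_nonneg hw
  have hbin : ∀ i, (∑ p ∈ f i, w p) < W - (1 - M) * L := by
    intro i
    have h1 : ¬ ∑ p ∈ T \ f i, w p ≤ (1 - M) * L := fun h => hn1 ⟨f i, (hf i).1, (hf i).2, h⟩
    have h2 := Finset.sum_sdiff (f := w) (hf i).1
    rw [not_le] at h1
    linarith
  have h1 : ∑ p ∈ Q, w p ≤ Q.card * (θ * L) := by
    have := Finset.sum_le_card_nsmul Q w _ (fun p hp => hlt p (hQ hp))
    rwa [nsmul_eq_mul] at this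
  have h2 : 0 < b → ∑ i, ∑ p ∈ f i, w p < b * (W - (1 - M) * L) := by
    intro hb
    have : Nonempty (Fin b) := ⟨⟨0, hb⟩⟩
    have := Finset.sum_lt_sum_of_nonempty (s := Finset.univ)
      (f := fun i => ∑ p ∈ f i, w p) (g := fun _ => W - (1 - M) * L)
      Finset.univ_nonempty (fun i _ => hbin i)
    rwa [Finset.sum_const, nsmul_eq_mul, Finset.card_univ, Fintype.card_fin] at this
  have hL : 0 ≤ L := hW0.trans hws
  rcases hcard with ⟨ha, rfl⟩ | ⟨ha, rfl⟩ | ⟨ha, rfl⟩ | ⟨ha, rfl⟩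
  · have h3 := h2 (by norm_num)
    rw [ha] at h1
    push_cast at h1 h3
    nlinarith [mul_nonneg hL (by linarith : (0 : ℝ) ≤ 1 / 6 - M)]
  · have h3 := h2 (by norm_num)
    rw [ha] at h1
    push_cast at h1 h3
    nlinarith [mul_nonneg hL (by linarith : (0 : ℝ) ≤ 1 - (4 * M + θ))]
  · have h3 := h2 (by norm_num)
    rw [ha] at h1
    push_cast at h1 h3
    nlinarith [mul_nonneg hL (by linarith : (0 : ℝ) ≤ 1 - (2 * M + 2 * θ))]
  · have h3 := h2 (by norm_num)
    rw [ha] at h1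
    push_cast at h1 h3
    nlinarith [mul_nonneg hL (by linarith : (0 : ℝ) ≤ 1 - (M + 3 * θ))]

end Pool.Agent.H38.PS
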