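import Pool.Agent.H43.PS.Targets

/-! Row STP of the board `psd_modules` (MP_c62aed_lc): one block. -/

namespace H43.PS

open Matrix Finset

theorem STP (hSTI : T_STI) (hNNG : T_NNG) : T_STP := by
  intro κ Θ _ _ _ _ p σ hp1 hp2 hσ hΘ q g hq hg
  obtain ⟨G, hG1, hG2, hG3⟩ := hSTI κ Θ p σ hp1 hp2 hσ hΘ q g hg
  refine ⟨G, hG1, hG2, ?_⟩
  have hav : (avm g).PosSemidef := by
    unfold avm
    apply Matrix.PosSemidef.smul
    · exact Matrix.posSemidef_sum _ (fun a _ => hg a)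
    · positivity
  have hB : 0 ≤ tp p (avm g) := (hNNG κ (avm g)).2 p hav
  set A : ℝ := av (fun a => tp p (g a)) with hA
  set B : ℝ := tp p (avm g) with hBd
  have hqr : (0 : ℝ) < (q : ℝ) := by exact_mod_cast hq
  have hQ : (0 : ℝ) ≤ (Fintype.card Θ : ℝ) := by positivity
  have hs : (0 : ℝ) ≤ σ ^ (2 * p) := by positivity
  have hpp : (0 : ℝ) < p - 1 := by linarith
  have hK : (0 : ℝ) ≤ ((Fintype.card Θ : ℝ) + 1) ^ (p - 1) := by positivity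
  have h1 : av (fun b => tp p (G b)) = (q : ℝ)⁻¹ * ∑ b, tp p (G b) := by
    unfold av
    rw [Fintype.card_fin]
  rw [h1]
  have h2 : (q : ℝ)⁻¹ * ∑ b, tp p (G b) ≤ (q : ℝ)⁻¹ * (((Fintype.card Θ : ℝ) + 1) ^ (p - 1) *
      ((q : ℝ) * A + σ ^ (2 * p) * ((Fintype.card Θ : ℝ) / (p - 1) * (A - B)))) :=
    mul_le_mul_of_nonneg_left hG3 (by positivity)
  refine h2.trans ?_
  have h3 : (q : ℝ)⁻¹ * (((Fintype.card Θ : ℝ) + 1) ^ (p - 1) *
      ((q : ℝ) * A + σ ^ (2 * p) * ((Fintype.card Θ : ℝ) / (p - 1) * (A - B)))) =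
      KK (Fintype.card Θ) q p σ * A - (q : ℝ)⁻¹ * (((Fintype.card Θ : ℝ) + 1) ^ (p - 1) *
      (σ ^ (2 * p) * ((Fintype.card Θ : ℝ) / (p - 1) * B))) := by
    unfold KK
    field_simp
    ring
  rw [h3]
  have h4 : (0 : ℝ) ≤ (q : ℝ)⁻¹ * (((Fintype.card Θ : ℝ) + 1) ^ (p - 1) *
      (σ ^ (2 * p) * ((Fintype.card Θ : ℝ) / (p - 1) * B))) := by positivity
  linarith

end H43.PS
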